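import Pool.Agent.Q309.KS.Main

/-!
The Kawaguchi-Silverman conjecture for Zariski-dense orbits whose points have homogeneous
coordinates which satisfy linear recurrences along the orbit of a rational function.
-/

set_option autoImplicit false

namespace Pool.Agent.Results.MP_0e7dfd_ag.ArithmeticDegrees

open MvPolynomial Height Filter
open Pool.Agent.TH8.OR (GivenBy)
open Pool.Agent.Q309.KS
open Pool.Agent.Results.MP_0e7dfd_ag.RecursiveOrbits (DenseOrbit OrbitOf Rec GraphDense)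

variable {k : Type} [Field k] {N : ℕ}

/-- The first dynamical degree of the rational map `f` with the coordinates `F` is at most `lam`:
for every `μ > lam` the iterates `f ^ n` are given, for all large `n`, by forms of degree at most
`μ ^ n`. -/
def DynDegLe (p : Ideal (MvPolynomial (Fin (N + 1)) k))
    (F : Fin (N + 1) → MvPolynomial (Fin (N + 1)) k) (lam : ℝ) : Prop :=
  ∀ μ : ℝ, lam < μ → ∀ᶠ n : ℕ in atTop, ∃ e : ℕ, (e : ℝ) ≤ μ ^ n ∧ GivenBy p F n e

/-- The (upper) arithmetic degree of the orbit `x` is at least `lam`: for every `μ < lam` there are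
infinitely many `m` with `max (h (x m), 1) ≥ μ ^ m`. -/
def ArithDegGe [NumberField k] (x : ℕ → Fin (N + 1) → k) (lam : ℝ) : Prop :=
  ∀ μ : ℝ, 0 ≤ μ → μ < lam → ∃ᶠ m : ℕ in atTop, μ ^ m ≤ max (logHeight (x m)) 1

/-- polynomials times a smaller exponential -/
theorem poly_le (a b : ℕ) {lam : ℕ} (h1 : 1 ≤ lam) {μ : ℝ} (hμ : (lam : ℝ) < μ) :
    ∀ᶠ n : ℕ in atTop, ((a + b * ∑ i ∈ Finset.range n, lam ^ i : ℕ) : ℝ) ≤ μ ^ n := by
  have hl1 : (1 : ℝ) ≤ lam := by exact_mod_cast h1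
  have hl0 : (0 : ℝ) < lam := by linarith
  have hr : 1 < μ / lam := by rwa [one_lt_div hl0]
  have t1 : Tendsto (fun n : ℕ => ((a : ℝ) * ((n : ℝ) ^ 0 / (μ / lam) ^ n) +
      b * ((n : ℝ) ^ 1 / (μ / lam) ^ n))) atTop (nhds (a * 0 + b * 0)) :=
    ((tendsto_pow_const_div_const_pow_of_one_lt 0 hr).const_mul _).add
      ((tendsto_pow_const_div_const_pow_of_one_lt 1 hr).const_mul _)
  rw [mul_zero, mul_zero, add_zero] at t1
  filter_upwards [t1.eventually_le_const (u := 1) one_pos] with n hn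
  have h2 : (0 : ℝ) < (μ / lam) ^ n := by positivity
  have h3 : (a : ℝ) + b * n ≤ (μ / lam) ^ n := by
    rw [pow_zero, pow_one, mul_div_assoc', mul_div_assoc', ← add_div, div_le_one h2, mul_one] at hn
    exact hn
  have h4 : ((∑ i ∈ Finset.range n, lam ^ i : ℕ) : ℝ) ≤ n * (lam : ℝ) ^ n := by
    have h5 : ∑ i ∈ Finset.range n, lam ^ i ≤ n * lam ^ n := by
      calc ∑ i ∈ Finset.range n, lam ^ i ≤ ∑ _i ∈ Finset.range n, lam ^ n :=
            Finset.sum_le_sum fun i hi => Nat.pow_le_pow_right h1 (Finset.mem_range.1 hi).le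
        _ = n * lam ^ n := by rw [Finset.sum_const, Finset.card_range, smul_eq_mul]
    exact_mod_cast h5
  have h6 : (1 : ℝ) ≤ (lam : ℝ) ^ n := one_le_pow₀ hl1
  have h7 : (0 : ℝ) ≤ a := Nat.cast_nonneg a
  have h8 : (0 : ℝ) ≤ b := Nat.cast_nonneg b
  have h9 : μ ^ n = (μ / lam) ^ n * (lam : ℝ) ^ n := by
    rw [← mul_pow, div_mul_cancel₀ _ hl0.ne']
  rw [Nat.cast_add, Nat.cast_mul, h9]
  calc (a : ℝ) + b * ((∑ i ∈ Finset.range n, lam ^ i : ℕ) : ℝ)
      ≤ a * (lam : ℝ) ^ n + b * (n * (lam : ℝ) ^ n) := by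
        refine add_le_add ?_ (mul_le_mul_of_nonneg_left h4 h8)
        calc (a : ℝ) = a * 1 := (mul_one _).symm
          _ ≤ a * (lam : ℝ) ^ n := mul_le_mul_of_nonneg_left h6 h7
    _ = (a + b * n) * (lam : ℝ) ^ n := by ring
    _ ≤ (μ / lam) ^ n * (lam : ℝ) ^ n := mul_le_mul_of_nonneg_right h3 (by linarith)

/-- **The Kawaguchi-Silverman conjecture for recurrent orbits.** Let `k` be a number field, `f` a
dominant rational self-map of a projective variety `X` over `k` and `x` a Zariski-dense orbit of `f`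
in `X(k)`. Let `t` be an orbit without repetition of a rational function of degree at most `δ`, and
suppose that the points `x m` have homogeneous coordinates which satisfy nontrivial linear
recurrences whose coefficients are polynomials in `t m`. Then there is an integer `lam` with
`1 ≤ lam ≤ max (δ, 1)` such that the dynamical degree of `f` is at most `lam` and the arithmetic
degree of the orbit is at least `lam`; so both are equal to `lam`. If `lam > 1`, then
`h (x m) ≥ c lam ^ m` for infinitely many `m`, `c > 0`, and `f ^ n` is given by forms of degree at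
most `a + b (1 + lam + … + lam ^ (n - 1))`. -/
theorem result (k : Type) [Field k] [NumberField k] {N : ℕ}
    (p : Ideal (MvPolynomial (Fin (N + 1)) k)) (F : Fin (N + 1) → MvPolynomial (Fin (N + 1)) k)
    (x : ℕ → Fin (N + 1) → k) (h : DenseOrbit p F x) (t : ℕ → k) (δ : ℕ) (ht : OrbitOf t δ)
    (hrec : ∀ j, Rec t fun m => x m j) :
    ∃ lam : ℕ, 1 ≤ lam ∧ lam ≤ max δ 1 ∧ DynDegLe p F lam ∧ ArithDegGe x lam ∧
      (∃ a b : ℕ, ∀ n, ∃ e ≤ a + b * ∑ i ∈ Finset.range n, lam ^ i, GivenBy p F n e) ∧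
      (1 < lam → ∃ c : ℝ, 0 < c ∧ ∃ᶠ m : ℕ in atTop, c * (lam : ℝ) ^ m ≤ logHeight (x m)) := by
  classical
  obtain ⟨hinj, g1, g2, hg1, hg2, hg⟩ := ht
  have hg20 : g2 ≠ 0 := by
    rintro rfl
    exact (hg 0).1 Polynomial.eval_zero
  -- lowest terms
  obtain ⟨d, g1', g2', rfl, rfl, hco⟩ : ∃ d g1' g2' : Polynomial k, g1 = d * g1' ∧ g2 = d * g2' ∧
      IsCoprime g1' g2' := by
    have h1 := isCoprime_div_gcd_div_gcd (p := g1) hg20
    refine ⟨GCDMonoid.gcd g1 g2, _, _, ?_, ?_, h1⟩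
    · exact (EuclideanDomain.mul_div_cancel' (gcd_ne_zero_of_right hg20)
        (gcd_dvd_left g1 g2)).symm
    · exact (EuclideanDomain.mul_div_cancel' (gcd_ne_zero_of_right hg20)
        (gcd_dvd_right g1 g2)).symm
  have hd0 : d ≠ 0 := left_ne_zero_of_mul hg20
  have hg2'0 : g2' ≠ 0 := right_ne_zero_of_mul hg20
  have hg' : ∀ m, g2'.eval (t m) ≠ 0 ∧ t (m + 1) * g2'.eval (t m) = g1'.eval (t m) := by
    intro m
    obtain ⟨h1, h2⟩ := hg m
    rw [Polynomial.eval_mul] at h1 h2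
    refine ⟨right_ne_zero_of_mul h1, ?_⟩
    rw [Polynomial.eval_mul] at h2
    apply mul_left_cancel₀ (left_ne_zero_of_mul h1)
    linear_combination h2
  have hd2 : g2'.natDegree ≤ δ := by
    rw [Polynomial.natDegree_mul hd0 hg2'0] at hg2
    omega
  have hd1 : g1'.natDegree ≤ δ := by
    by_cases h0 : g1' = 0
    · rw [h0]
      simp
    · rw [Polynomial.natDegree_mul hd0 h0] at hg1
      omega
  obtain ⟨δ', hδ'⟩ : ∃ δ', max g1'.natDegree g2'.natDegree = δ' := ⟨_, rfl⟩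
  have hδδ : δ' ≤ δ := hδ' ▸ max_le hd1 hd2
  have hstart := (Pool.Agent.Results.MP_0e7dfd_ag.RecursiveOrbits.result k p F x h).1 t δ'
    ⟨hinj, g1', g2', (le_max_left _ _).trans hδ'.le, (le_max_right _ _).trans hδ'.le, hg'⟩ hrec
  obtain ⟨⟨a, b, hab⟩, -, hgraph⟩ := hstart
  have hone : ∀ {a b : ℕ}, (∀ n, ∃ e ≤ a + b * ∑ i ∈ Finset.range n, 1 ^ i, GivenBy p F n e) →
      ∃ lam : ℕ, 1 ≤ lam ∧ lam ≤ max δ 1 ∧ DynDegLe p F lam ∧ ArithDegGe x lam ∧
      (∃ a b : ℕ, ∀ n, ∃ e ≤ a + b * ∑ i ∈ Finset.range n, lam ^ i, GivenBy p F n e) ∧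
      (1 < lam → ∃ c : ℝ, 0 < c ∧ ∃ᶠ m : ℕ in atTop, c * (lam : ℝ) ^ m ≤ logHeight (x m)) := by
    intro a b hab
    refine ⟨1, le_rfl, le_max_right _ _, fun μ hμ => ?_, fun μ h0 hμ => ?_, ⟨a, b, hab⟩,
      fun h1 => absurd h1 (lt_irrefl 1)⟩
    · filter_upwards [poly_le a b le_rfl hμ] with n hn
      obtain ⟨e, he, h3⟩ := hab n
      exact ⟨e, le_trans (by exact_mod_cast he) hn, h3⟩
    · refine Frequently.of_forall fun m => ?_
      rw [Nat.cast_one] at hμ
      exact (pow_le_one₀ h0 hμ.le).trans (le_max_right _ _)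
  rcases Nat.lt_or_ge 1 δ' with h2 | h2
  · by_cases hgr : GraphDense p t x
    · obtain ⟨-, a', ha'⟩ := hgraph hgr
      refine hone (a := a') (b := 0) fun n => ?_
      obtain ⟨e, he, h3⟩ := ha' n
      exact ⟨e, by omega, h3⟩
    · obtain ⟨c, hc, hfr⟩ := ht_points h hco hδ' h2 hinj hg' hgr
      have hδ2 : (1 : ℝ) < δ' := by exact_mod_cast h2
      refine ⟨δ', h2.le, hδδ.trans (le_max_left _ _), fun μ hμ => ?_, fun μ h0 hμ => ?_,
        ⟨a, b, hab⟩, fun _ => ⟨c, hc, hfr⟩⟩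
      · filter_upwards [poly_le a b h2.le hμ] with n hn
        obtain ⟨e, he, h3⟩ := hab n
        exact ⟨e, le_trans (by exact_mod_cast he) hn, h3⟩
      · have hd : (0 : ℝ) < δ' := by linarith
        have h3 : Tendsto (fun m : ℕ => (μ / δ') ^ m) atTop (nhds 0) :=
          tendsto_pow_atTop_nhds_zero_of_lt_one (by positivity) (by rwa [div_lt_one hd])
        refine (hfr.and_eventually (h3.eventually_le_const hc)).mono ?_
        rintro m ⟨h4, h5⟩
        refine le_trans ?_ (h4.trans (le_max_left _ _))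
        rw [div_pow, div_le_iff₀ (by positivity)] at h5
        exact h5
  · refine hone (a := a) (b := b) fun n => ?_
    obtain ⟨e, he, h3⟩ := hab n
    refine ⟨e, he.trans ?_, h3⟩
    refine Nat.add_le_add_left (Nat.mul_le_mul_left _ (Finset.sum_le_sum fun i _ => ?_)) _
    exact Nat.pow_le_pow_left h2 i

end Pool.Agent.Results.MP_0e7dfd_ag.ArithmeticDegrees
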