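import Pool.Agent.Q309.OFF.Dense

/-!
Zariski-dense orbits whose points have homogeneous coordinates which satisfy linear recurrences: such
orbits exist only on varieties which are covered by rational curves of bounded degree.
-/

set_option autoImplicit false

namespace Pool.Agent.Results.MP_0e7dfd_ag.DenseRecurrentSequences

open MvPolynomial
open Pool.Agent.Q309.PO (ORec)
open Pool.Agent.Q309.OFF (Par CutBy OnV OnCurve dense_rat)

/-- **Dense recurrent sequences lie on varieties covered by rational curves of bounded degree.** For
all `n, D, r, e, q` there is `B` such that for all algebraically closed fields `L` of characteristic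
zero, all closed subsets `V` of the projective space of dimension `n` over `L` cut out by forms of
degree at most `D`, and all sequences `x` of points of `V(L)` given by linear recurrences of order at
most `r` with coefficients of degree at most `e` along an orbit of a polynomial of degree at most `q`:

(1) at most `B` different points among the `x m` lie on no nonconstant rational curve of degree at
most `B` in `V`;

(2) if the ideal of `V` is prime, the points `x m` are Zariski-dense in `V`, and `V` is not a single
point, then every point of `V` lies on a nonconstant rational curve of degree at most `B` in `V`;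

(3) the same holds if every form which vanishes at `x m` for all large `m` vanishes on `V` and no
point occurs infinitely often. -/
theorem result (n D r e q : ℕ) : ∃ B : ℕ, ∀ (L : Type) [Field L] [CharZero L] [IsAlgClosed L]
    (I : Ideal (MvPolynomial (Fin (n + 1)) L)), CutBy I D →
    ∀ x : ℕ → Fin (n + 1) → L, ORec r e q x → (∀ m, OnV I (x m)) →
      (∃ J : Finset ℕ, J.card ≤ B ∧ ∀ m, ¬ OnCurve I B (x m) → ∃ i ∈ J, Par (x i) (x m)) ∧
      (I.IsPrime → (∀ F : MvPolynomial (Fin (n + 1)) L, (∃ d, F.IsHomogeneous d) →
          (∀ m, eval (x m) F = 0) → F ∈ I) →
        (∃ y z, OnV I y ∧ OnV I z ∧ ¬ Par y z) → ∀ y, OnV I y → OnCurve I B y) ∧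
      ((∀ F : MvPolynomial (Fin (n + 1)) L, (∃ d, F.IsHomogeneous d) →
          (∃ M, ∀ m, M ≤ m → eval (x m) F = 0) → ∀ y, OnV I y → eval y F = 0) →
        (∀ i, {m | Par (x i) (x m)}.Finite) → ∀ y, OnV I y → OnCurve I B y) :=
  dense_rat n D r e q

end Pool.Agent.Results.MP_0e7dfd_ag.DenseRecurrentSequences
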