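import Pool.Agent.Q80.RA.Fib
import Pool.Agent.Q80.RA.Orb

/-!
MP_0e7dfd_ag, Q1: the Kawaguchi-Silverman conjecture for the projective varieties with a nonconstant
rational map to a projective scheme with a finite morphism to projective space which is ramified over
many general hypersurfaces: there are no Zariski-dense orbits.

Definitions: `FinCover`, `Pt`, `Ramified` (`Q80/FH/Defs.lean`), `IsConst` (`Q80/RA/Spec.lean`),
`FunField` (`TH143/GT/Fin.lean`: `F` is the function field and `ξ` the generic point of the variety with
the given ideal), `RatImage` (`Q13/KO/Gen.lean`).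
-/

set_option autoImplicit false

namespace Pool.Agent.Results.MP_0e7dfd_ag.MapsToRamifiedCovers

open Pool.Agent.Q80.FH Pool.Agent.Q80.RA MvPolynomial
open Pool.Agent.TH143.GT (FunField)
open Pool.Agent.Q13.KO (RatImage)
open Pool.Agent.W602.GT (IsForm)

/-- Let `n, d ≥ 1` and `m ≥ 2`, `N + 1 = C(n + d, n)`, `2 N m ≤ K (m - 1)` and `q > C(N + K, N)`. Let
`Φ 1, …, Φ q` be general forms of degree `d` in `n + 1` variables and `X` a projective scheme over `ℂ`
with a finite morphism to projective `n`-space which is ramified with the multiplicity at least `m` over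
the hypersurfaces `Φ i = 0`. Let `V` be a projective variety, of any dimension, over a field `k` with an
embedding in `ℂ` (for instance the field of algebraic numbers), which is geometrically integral, and
suppose that there is a nonconstant rational map from `V_ℂ` to `X`. Then no orbit
`x, f(x), f(f(x)), …` of points of `V` over `k` under a rational self-map `f` of `V_ℂ` (for instance an
endomorphism of `V`), which is regular at the points of the orbit, is Zariski-dense in `V`: its points
lie on a hypersurface over `k` which does not contain `V`. -/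
theorem result {n d m N K q : ℕ} (hn : 1 ≤ n) (hd : 1 ≤ d) (hm : 2 ≤ m)
    (hN : N + 1 = (n + d).choose n) (hK : 2 * N * m ≤ K * (m - 1)) (hq : (N + K).choose N < q) :
    ∃ Ψ : MvPolynomial (Fin q × Exps n d) ℂ, Ψ ≠ 0 ∧
      ∀ Φ : Fin q → MvPolynomial (Fin (n + 1)) ℂ, (∀ i, (Φ i).IsHomogeneous d) →
        eval (fun x => coeff x.2.1 (Φ x.1)) Ψ ≠ 0 →
          ∀ (r : ℕ) (X : FinCover ℂ n r), X.Ramified Φ m d →
            -- the variety `V`, given by the forms in `FF`, and the rational map to `X`
            ∀ (k : Type) [Field k] (σ : k →+* ℂ) (M : ℕ) (FF : Set (MvPolynomial (Fin (M + 1)) k)),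
              (∀ G ∈ FF, IsForm G) →
              ∀ (F : Type) [Field F] [Algebra ℂ F] (w : ℕ) (ξ : Fin (M + 1) → F),
                FunField ((Ideal.span FF).map (MvPolynomial.map σ)) 1 F w ξ →
                ∀ (y : Fin (n + 1) → F) (z : Fin r → F), X.Pt y z → ¬ IsConst X y z →
                  -- the orbit
                  ∀ x : ℕ → Fin (M + 1) → k, (∀ i, x i ≠ 0) → (∀ i, ∀ G ∈ FF, eval (x i) G = 0) →
                    RatImage (fun i j => σ (x i j)) (fun i j => σ (x (i + 1) j)) →
                    ∃ G : MvPolynomial (Fin (M + 1)) k, IsForm G ∧ G ∉ Ideal.span FF ∧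
                      ∀ i, eval (x i) G = 0 := by
  obtain ⟨Ψ, h1, h2⟩ := main_c hn hd hm hN hK hq
  refine ⟨Ψ, h1, fun Φ hΦ hΨ r X hR k _ σ M FF hFF F _ _ w ξ hV y z hp hne x hx0 hxV hx => ?_⟩
  exact orbit_not_dense σ hFF hV (fibGT_of_map ((h2 Φ hΦ hΨ r X).1 hR).2 hV.sub.dim _ hp hne) hx0
    hxV hx

end Pool.Agent.Results.MP_0e7dfd_ag.MapsToRamifiedCovers
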