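import Pool.Agent.Q309.OFF.Img

/-!
Varieties with a Zariski-dense orbit whose points have homogeneous coordinates which satisfy linear
recurrences: all images under rational maps are points or covered by rational curves.
-/

set_option autoImplicit false

namespace Pool.Agent.Results.MP_0e7dfd_ag.RationalImages

open MvPolynomial
open Pool.Agent.Q309.OFF (OnV OnCurve ImIdeal image_rat)
open Pool.Agent.Results.MP_0e7dfd_ag.RecursiveOrbits (DenseOrbit Rec)

/-- `x` is a Zariski-dense orbit of the dominant rational self-map `f` of the projective variety `V`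
of the prime ideal `p`, and `f` is defined at all points of the orbit: `f` is given by each of the
tuples `F i` of forms, and for each `m` some `F i` does not vanish at `x m`. -/
def DefinedOrbit {L : Type} [Field L] {n : ℕ} (p : Ideal (MvPolynomial (Fin (n + 1)) L)) {ι : Type}
    (F : ι → Fin (n + 1) → MvPolynomial (Fin (n + 1)) L) (x : ℕ → Fin (n + 1) → L) : Prop :=
  (∀ i, DenseOrbit p (F i) x) ∧ ∀ m, ∃ i j, eval (x m) (F i j) ≠ 0

/-- The rational map with the coordinates `Φ` is constant on the variety of `p`. -/
def ConstMap {L : Type} [Field L] {n s : ℕ} (p : Ideal (MvPolynomial (Fin (n + 1)) L))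
    (Φ : Fin (s + 1) → MvPolynomial (Fin (n + 1)) L) : Prop :=
  ∃ c : Fin (s + 1) → L, c ≠ 0 ∧ ∀ u v, C (c u) * Φ v - C (c v) * Φ u ∈ p

/-- **Images of varieties with dense recurrent orbits.** Let `V` be a projective variety over an
algebraically closed field `L` of characteristic zero, `f` a dominant rational self-map of `V` and `x`
a Zariski-dense orbit of `f` in `V(L)`, `f` defined at all `x m`, whose points have homogeneous
coordinates which satisfy nontrivial linear recurrences with coefficients which are polynomials in
`t m`, where `t` is an orbit without repetition of a polynomial `ρ`. Let `φ` be a rational map from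
`V` to the projective space of dimension `s`, and let `Z` be the closure of its image. Then `φ` is
constant, or for some `B` every point of `Z` lies on a nonconstant rational curve of degree at most `B`
in `Z`. -/
theorem result (L : Type) [Field L] [CharZero L] [IsAlgClosed L] {n : ℕ}
    (p : Ideal (MvPolynomial (Fin (n + 1)) L)) {ι : Type}
    (F : ι → Fin (n + 1) → MvPolynomial (Fin (n + 1)) L) (x : ℕ → Fin (n + 1) → L)
    (h : DefinedOrbit p F x) (t : ℕ → L) (ρ : Polynomial L) (ht : Function.Injective t)
    (hρ : ∀ m, t (m + 1) = ρ.eval (t m)) (hrec : ∀ j, Rec t fun m => x m j) {s b : ℕ}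
    (Φ : Fin (s + 1) → MvPolynomial (Fin (n + 1)) L) (hΦ : ∀ u, (Φ u).IsHomogeneous b)
    (hΦp : ∃ u, Φ u ∉ p) :
    ConstMap p Φ ∨ ∃ B, ∀ y, OnV (ImIdeal p Φ) y → OnCurve (ImIdeal p Φ) B y :=
  image_rat h.1 h.2 ht hρ hrec hΦ hΦp

end Pool.Agent.Results.MP_0e7dfd_ag.RationalImages
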